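import Mathlib

/-!
# MP_a0e11f_co: two-sided gamma positivity over even and odd elements of type D

The statement of Q1 is asked for every `n ≥ 2`; it fails for `n = 2`
(`TSD₂⁺(s,t) = 1 + s²t²` has `γ_{1,0} = -2`).
-/

namespace Pool.Agent.Results.MP_a0e11f_co.FailsAtRankTwo

open Finset

/-- Signed permutations of `{±1,…,±n}`: a permutation of the absolute values and a set of
signs (`true` = the value at this position is negative). -/
abbrev SignedPerm (n : ℕ) : Type := Equiv.Perm (Fin n) × (Fin n → Bool)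

/-- The window notation `π_{i+1} = π(i+1)`, for `i = 0,…,n-1`. -/
def val {n : ℕ} (π : SignedPerm n) (i : Fin n) : ℤ :=
  if π.2 i then -((π.1 i : ℕ) + 1 : ℤ) else ((π.1 i : ℕ) + 1 : ℤ)

/-- The inverse signed permutation. -/
def inv {n : ℕ} (π : SignedPerm n) : SignedPerm n :=
  (π.1.symm, fun j => π.2 (π.1.symm j))

/-- Membership in the type D group: an even number of negative values. -/
def InD {n : ℕ} (π : SignedPerm n) : Prop :=
  Even (univ.filter (fun i => π.2 i = true)).card

instance {n : ℕ} (π : SignedPerm n) : Decidable (InD π) := by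
  unfold InD; infer_instance

/-- The type D length. -/
def lenD {n : ℕ} (π : SignedPerm n) : ℕ :=
  (univ.filter (fun p : Fin n × Fin n => p.1 < p.2 ∧ val π p.1 > val π p.2)).card +
  (univ.filter (fun p : Fin n × Fin n => p.1 < p.2 ∧ val π p.1 + val π p.2 < 0)).card

/-- The extended window `π_0, π_1, …, π_n` with `π_0 = -π_2` (for `n ≥ 2`; junk value `0`
outside the range). -/
def window {n : ℕ} (π : SignedPerm n) (i : ℕ) : ℤ :=
  if i = 0 then (if h : 1 < n then -(val π ⟨1, h⟩) else 0)
  else (if h : i - 1 < n then val π ⟨i - 1, h⟩ else 0)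

/-- Type D descents: the number of `i ∈ {0,…,n-1}` with `π_i > π_{i+1}`. -/
def desD {n : ℕ} (π : SignedPerm n) : ℕ :=
  ((range n).filter (fun i => window π i > window π (i + 1))).card

/-- Inverse descents. -/
def idesD {n : ℕ} (π : SignedPerm n) : ℕ := desD (inv π)

/-- The elements of the type D group of even length. -/
def Dplus (n : ℕ) : Finset (SignedPerm n) :=
  univ.filter (fun π => InD π ∧ Even (lenD π))

/-- The elements of the type D group of odd length. -/
def Dminus (n : ℕ) : Finset (SignedPerm n) :=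
  univ.filter (fun π => InD π ∧ ¬ Even (lenD π))

/-- The two-sided polynomial `∑ t^des s^ides` over a set of signed permutations, as a
polynomial function of `(s,t)`. -/
noncomputable def TS {n : ℕ} (A : Finset (SignedPerm n)) (s t : ℝ) : ℝ :=
  ∑ π ∈ A, t ^ desD π * s ^ idesD π

/-- A nonnegative two-sided gamma expansion of degree `n`. -/
def HasGamma (n : ℕ) (f : ℝ → ℝ → ℝ) : Prop :=
  ∃ γ : ℕ → ℕ → ℝ, (∀ i j, 0 ≤ γ i j) ∧
    ∀ s t : ℝ, f s t =
      ∑ p ∈ ((range (n + 1)) ×ˢ (range (n + 1))).filter (fun p => 2 * p.1 + p.2 ≤ n),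
        γ p.1 p.2 * (s * t) ^ p.1 * (s + t) ^ p.2 * (1 + s * t) ^ (n - 2 * p.1 - p.2)

theorem dplus_sum :
    (∑ π ∈ Dplus 2, (-1 : ℤ) ^ desD π * 1 ^ idesD π) = 2 := by
  decide +kernel

/-- For `n = 2` the polynomial `TSD₂⁺` has no nonnegative two-sided gamma expansion, so
the statement of Q1 fails. -/
theorem result :
    ¬ HasGamma 2 (TS (Dplus 2)) ∧
    ¬ ∀ n : ℕ, 2 ≤ n → HasGamma n (TS (Dplus n)) ∧ HasGamma n (TS (Dminus n)) := by
  have key : ¬ HasGamma 2 (TS (Dplus 2)) := by
    rintro ⟨γ, hγ, h⟩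
    have h1 := h 1 (-1)
    have h2 : TS (Dplus 2) 1 (-1) = 2 := by
      have := congrArg (fun z : ℤ => (z : ℝ)) dplus_sum
      simp only [TS]
      push_cast at this
      simpa using this
    rw [h2] at h1
    have h3 : ((range (2 + 1)) ×ˢ (range (2 + 1))).filter
        (fun p : ℕ × ℕ => 2 * p.1 + p.2 ≤ 2) = {(0, 0), (0, 1), (0, 2), (1, 0)} := by
      decide
    rw [h3] at h1
    have h4 := hγ 1 0
    norm_num at h1
    linarith
  exact ⟨key, fun H => key (H 2 le_rfl).1⟩

end Pool.Agent.Results.MP_a0e11f_co.FailsAtRankTwo
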